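import Pool.Agent.MP_8d41d4_an.H88.Weak

/-! The case of a copy of the space of null sequences. -/

namespace Pool.Agent.MP_8d41d4_an.H88

open Filter Topology Set

variable {X : Type*} [NormedAddCommGroup X] [NormedSpace ℝ X]

lemma norm_sum_smul_le {b : ℕ → X} {C m : ℝ} (h : ∀ s : Finset ℕ, ‖∑ k ∈ s, b k‖ ≤ C)
    (hm : 0 ≤ m) {a : ℕ → ℝ} {s : Finset ℕ} (ha : ∀ k ∈ s, |a k| ≤ m) :
    ‖∑ k ∈ s, a k • b k‖ ≤ m * (C + C) := by
  obtain ⟨f, h1, h2⟩ := exists_dual_vector'' ℝ (∑ k ∈ s, a k • b k)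
  have h3 : ∀ t : Finset ℕ, |∑ k ∈ t, f (b k)| ≤ C := fun t => by
    rw [← map_sum]
    exact (f.le_of_opNorm_le h1 _).trans (by rw [one_mul]; exact h t)
  rw [← show _ = ‖∑ k ∈ s, a k • b k‖ from h2, map_sum]
  refine (Finset.sum_le_sum (g := fun k => m * |f (b k)|) fun k hk => ?_).trans ?_
  · rw [map_smul, smul_eq_mul]
    exact (le_abs_self _).trans ((abs_mul _ _).trans_le (by gcongr; exact ha k hk))
  · rw [← Finset.mul_sum, ← Finset.sum_filter_add_sum_filter_not s fun k => 0 ≤ f (b k),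
      Finset.sum_congr rfl fun k hk => abs_of_nonneg (Finset.mem_filter.1 hk).2,
      Finset.sum_congr rfl fun k hk => abs_of_neg (not_le.1 (Finset.mem_filter.1 hk).2),
      Finset.sum_neg_distrib]
    gcongr
    exacts [(le_abs_self _).trans (h3 _), (neg_le_abs _).trans (h3 _)]

variable {N : Seminorm ℝ X} {c C : ℝ}

lemma Nice.sq_le (hN : Nice N c C) (x : X) : (c * ‖x‖) ^ 2 ≤ N x ^ 2 :=
  pow_le_pow_left₀ (mul_nonneg hN.pos.le (norm_nonneg _)) (hN.lo x) 2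

variable [CompleteSpace X]

lemma exists_subseq (hN : Nice N c C) (g : ℕ → X →L[ℝ] ℝ) {R : ℝ} (hR : ∀ k, ‖g k‖ ≤ R) :
    ∃ φ : ℕ → ℕ, StrictMono φ ∧
      ∃ γ : X →L[ℝ] ℝ, ∀ x, Tendsto (fun k => g (φ k) x) atTop (𝓝 (γ x)) := by
  choose γ hγ hγ' using fun 𝒰 : Ultrafilter ℕ => exists_ulim 𝒰 g hR
  have key : ∀ (n : ℕ) (M : Set ℕ), ∃ M' ⊆ M, ((∃ᶠ k in atTop, k ∈ M) → ∃ᶠ k in atTop, k ∈ M') ∧
      ∀ 𝒰 𝒱 : Ultrafilter ℕ, ↑𝒰 ≤ (atTop : Filter ℕ) → ↑𝒱 ≤ (atTop : Filter ℕ) → M' ∈ 𝒰 → M' ∈ 𝒱 →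
        ‖γ 𝒰 - γ 𝒱‖ ≤ 1 / (n + 1) := fun n M => by
    by_cases hM : ∃ᶠ k in atTop, k ∈ M
    swap
    · exact ⟨∅, empty_subset _, fun h => absurd h hM, fun 𝒰 _ _ _ h => absurd h 𝒰.empty_notMem⟩
    have := frequently_mem_iff_neBot.1 hM
    have : Nonempty {𝒰 : Ultrafilter ℕ // ↑𝒰 ≤ atTop ⊓ 𝓟 M} := ⟨⟨_, Ultrafilter.of_le _⟩⟩
    obtain ⟨x, a, ⟨𝒲, h1⟩, h2⟩ := slice (diff_sq hN.up hN.diff) hN.pos hN.sq_le
      (fun 𝒰 : {𝒰 : Ultrafilter ℕ // ↑𝒰 ≤ atTop ⊓ 𝓟 M} => γ 𝒰) (fun _ => hγ _)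
      (Nat.one_div_pos_of_nat (n := n))
    refine ⟨M ∩ {k | a < g k x}, inter_subset_left, fun _ => (Eventually.frequently (inter_mem
      (le_principal_iff.1 (𝒲.2.trans inf_le_right)) ((hγ' 𝒲 x).eventually_const_lt h1))).filter_mono
        (𝒲.2.trans inf_le_left), fun 𝒰 𝒱 k1 k2 k3 k4 => ?_⟩
    exact h2 ⟨𝒰, le_inf k1 (le_principal_iff.2 (mem_of_superset k3 inter_subset_left))⟩
      ⟨𝒱, le_inf k2 (le_principal_iff.2 (mem_of_superset k4 inter_subset_left))⟩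
      (ge_of_tendsto (hγ' 𝒰 x) (mem_of_superset k3 fun k h => (h.2.le : a ≤ g k x)))
      (ge_of_tendsto (hγ' 𝒱 x) (mem_of_superset k4 fun k h => (h.2.le : a ≤ g k x)))
  choose f h1 h2 h3 using key
  let M : ℕ → Set ℕ := fun n => n.rec univ f
  obtain ⟨φ, hφ, h4⟩ := extraction_forall_of_frequently (P := fun n k => k ∈ M n) fun n => by
    induction n with
    | zero => exact .of_forall fun _ => trivial
    | succ n ih => exact h2 n _ ih
  have h5 : ∀ (𝒰 : Ultrafilter ℕ) n, ↑𝒰 ≤ (atTop : Filter ℕ) → M n ∈ 𝒰.map φ := fun 𝒰 n h =>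
    h (eventually_atTop.2 ⟨n, fun k hk =>
      antitone_nat_of_succ_le (f := M) (fun n => h1 n _) hk (h4 k)⟩)
  refine ⟨φ, hφ, γ ((hyperfilter ℕ).map φ), fun x => (tendsto_iff_ultrafilter _ _ _).2 fun 𝒰 h => ?_⟩
  rw [← sub_eq_zero.1 (norm_le_zero_iff.1 (ge_of_tendsto' tendsto_one_div_add_atTop_nhds_zero_nat
    fun n => h3 n (M n) (𝒰.map φ) ((hyperfilter ℕ).map φ) (hφ.tendsto_atTop.mono_left h)
      (hφ.tendsto_atTop.mono_left Nat.hyperfilter_le_atTop) (h5 _ (n + 1) h)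
      (h5 _ (n + 1) Nat.hyperfilter_le_atTop)))]
  exact hγ' (𝒰.map φ) x

lemma good_of_null (hN : Nice N c C) {b : ℕ → X} {D : ℝ} (hb : ∀ s : Finset ℕ, ‖∑ k ∈ s, b k‖ ≤ D)
    {h : ℕ → X →L[ℝ] ℝ} (h0 : ∀ x, Tendsto (fun k => h k x) atTop (𝓝 0))
    (h1 : ∀ k, h k (b k) = 1) (h2 : ∀ j k, k ≠ j → h k (b j) = 0) : Good X := by
  have hD : 0 ≤ D := by simpa using hb ∅
  obtain ⟨S, hS⟩ := exists_clm (fun k => ((1 - 1 / (k + 1) : ℝ) • h k).smulRight (b k)) fun x =>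
    summable_iff_vanishing_norm.2 fun ε hε => by
      obtain ⟨n, hn⟩ := eventually_atTop.1 ((h0 x).abs.eventually_le_const
        (show |0| < ε / (D + D + 1) by rw [abs_zero]; positivity))
      refine ⟨Finset.range n, fun t ht => (norm_sum_smul_le hb (m := ε / (D + D + 1))
        (by positivity) fun k hk => ?_).trans_lt ?_⟩
      · refine le_trans ((abs_mul _ _).trans_le (mul_le_of_le_one_left (abs_nonneg _) ?_))
          (hn k (not_lt.1 fun h => Finset.disjoint_left.1 ht hk (Finset.mem_range.2 h)))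
        have := Nat.one_div_pos_of_nat (α := ℝ) (n := k)
        have := Nat.one_div_le_one_div (α := ℝ) k.zero_le
        rw [abs_le]
        constructor <;> simp only [Nat.cast_zero, zero_add, div_one] at this <;> linarith
      · rw [div_mul_eq_mul_div, div_lt_iff₀ (by positivity)]
        linarith
  have h3 : ∀ x, x - S x = 0 → x = 0 := fun x hx => by
    have h4 : ∀ j, h j x = 0 := fun j => by
      have := ((h j).hasSum (hS x)).unique (hasSum_single j fun k hk => by simp [h2 k j hk.symm])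
      rw [← sub_eq_zero.1 hx] at this
      simpa [h1, sub_mul, Nat.cast_add_one_ne_zero, eq_sub_iff_add_eq] using this
    rw [sub_eq_zero.1 hx]
    exact (hS x).unique (by simp [h4])
  refine ⟨N.comp (LinearMap.id - S.toLinearMap), fun x hx => h3 x (norm_le_zero_iff.1
    (nonpos_of_mul_nonpos_right ((hN.lo (x - S x)).trans_eq (by exact hx)) hN.pos)), fun x hx => by
      exact DifferentiableAt.comp x (f := fun x => x - S x) (hN.diff _ fun h => hx (h3 x h))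
        (differentiableAt_id.sub S.differentiableAt),
    ⟨|C| * (1 + ‖S‖), fun x => (hN.up (x - S x)).trans ?_⟩, fun ε hε => ?_⟩
  · rw [mul_assoc, add_mul, one_mul]
    exact mul_le_mul (le_abs_self _) ((norm_sub_le _ _).trans (by gcongr; exact S.le_opNorm x))
      (norm_nonneg _) (abs_nonneg _)
  · obtain ⟨k, hk⟩ := exists_nat_gt (C / ε)
    have h4 : b k - S (b k) = (1 / (k + 1) : ℝ) • b k := by
      rw [(hS (b k)).unique (hasSum_single k fun j hj => by simp [h2 k j hj])]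
      simp [h1, sub_smul]
    have h5 : 0 < ‖b k‖ := norm_pos_iff.2 fun h => by simpa [h] using h1 k
    refine ⟨b k, ((hN.up (b k - S (b k))).trans_eq (by rw [h4, norm_smul, ← mul_assoc])).trans_lt
      (mul_lt_mul_of_pos_right ?_ h5)⟩
    rw [Real.norm_of_nonneg (by positivity), mul_one_div, div_lt_iff₀ (by positivity)]
    rw [div_lt_iff₀ hε] at hk
    linarith

theorem good_of_c0 (hN : Nice N c C) {b : ℕ → X} {D R : ℝ}
    (hb : ∀ s : Finset ℕ, ‖∑ k ∈ s, b k‖ ≤ D) {g : ℕ → X →L[ℝ] ℝ} (hR : ∀ k, ‖g k‖ ≤ R)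
    (h1 : ∀ k, g k (b k) = 1) (h2 : ∀ j k, k ≠ j → g k (b j) = 0) : Good X := by
  obtain ⟨φ, hφ, γ, h⟩ := exists_subseq hN g hR
  have h3 : ∀ j, γ (b j) = 0 := fun j => tendsto_nhds_unique (h _) (tendsto_const_nhds.congr'
    ((hφ.tendsto_atTop.eventually_ne_atTop j).mono fun k hk => (h2 _ _ hk).symm))
  refine good_of_null hN (b := b ∘ φ) (D := D) (h := fun k => g (φ k) - γ) (fun s => ?_)
    (fun x => by simpa using (h x).sub_const (γ x)) (fun k => by simp [h1, h3])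
    fun j k hk => by simp [h2 _ _ (hφ.injective.ne hk), h3]
  simpa using hb (s.map ⟨φ, hφ.injective⟩)

end Pool.Agent.MP_8d41d4_an.H88
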