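import Mathlib

/-! Differentiability of seminorms, the variational principle, small slices. -/

namespace Pool.Agent.MP_8d41d4_an.H88

open Filter Topology Set Asymptotics

variable {E : Type*} [NormedAddCommGroup E] [NormedSpace ℝ E]

lemma norm_le_of_ball {g : E →L[ℝ] ℝ} {δ b : ℝ} (hδ : 0 < δ) (h : ∀ u, ‖u‖ ≤ δ → g u ≤ b * δ) :
    ‖g‖ ≤ b := by
  have h0 : 0 ≤ b := by simpa [hδ] using h 0 (by simpa using hδ.le)
  refine ContinuousLinearMap.opNorm_le_of_unit_norm h0 fun x hx => abs_le.2 ⟨?_, ?_⟩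
  · have := h (-(δ • x)) (by simp [norm_smul, hx, abs_of_pos hδ])
    simp only [map_neg, map_smul, smul_eq_mul] at this
    nlinarith
  · have := h (δ • x) (by simp [norm_smul, hx, abs_of_pos hδ])
    simp only [map_smul, smul_eq_mul] at this
    nlinarith

lemma exists_ball {F : E → ℝ} {g : E →L[ℝ] ℝ} {x : E} (h : HasFDerivAt F g x) {ε : ℝ}
    (hε : 0 < ε) : ∃ δ > 0, ∀ u, ‖u‖ ≤ δ → F (x + u) - F x - g u ≤ ε * δ := by
  obtain ⟨δ, hδ, h1⟩ := Metric.nhds_basis_closedBall.eventually_iff.1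
    ((hasFDerivAt_iff_isLittleO_nhds_zero.1 h).def hε)
  exact ⟨δ, hδ, fun u hu => (le_abs_self _).trans ((h1 (by simpa using hu)).trans (by gcongr))⟩

lemma deriv_le {F : E → ℝ} {g : E →L[ℝ] ℝ} {x : E} (h : HasFDerivAt F g x) {u : E} {a : ℝ}
    (ha : ∀ t ∈ Ioo (0 : ℝ) 1, F (x + t • u) - F x ≤ t * a) : g u ≤ a := by
  have h1 : HasDerivAt (fun t : ℝ => F (x + t • u)) (g u) 0 := by
    have h2 : HasDerivAt (fun t : ℝ => x + t • u) u 0 := by
      simpa using ((hasDerivAt_id (0 : ℝ)).smul_const u).const_add x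
    exact HasFDerivAt.comp_hasDerivAt (0 : ℝ) (f := fun t : ℝ => x + t • u) (by simpa using h) h2
  refine le_of_tendsto h1.tendsto_slope_zero_right ?_
  filter_upwards [Ioo_mem_nhdsGT one_pos] with t ht
  simpa [inv_mul_le_iff₀ ht.1] using ha t ht

/-- The derivative of a seminorm is a supporting functional. -/
lemma deriv_supp {p : Seminorm ℝ E} {g : E →L[ℝ] ℝ} {x : E} (h : HasFDerivAt p g x) :
    (∀ u, g u ≤ p u) ∧ g x = p x := by
  have h1 : ∀ u, g u ≤ p u := fun u => deriv_le h fun t ht => by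
    have := map_add_le_add p x (t • u)
    rw [map_smul_eq_mul, Real.norm_of_nonneg ht.1.le] at this
    linarith
  refine ⟨h1, le_antisymm (h1 x) ?_⟩
  have := deriv_le h (u := -x) (a := -p x) fun t ht => by
    rw [show x + t • -x = (1 - t) • x by module, map_smul_eq_mul,
      Real.norm_of_nonneg (sub_nonneg.2 ht.2.le)]
    linarith
  rw [map_neg] at this
  linarith

/-- A differentiable seminorm is continuously differentiable. -/
lemma contDiffOn_of_diff {p : Seminorm ℝ E} (h : ∀ x ≠ 0, DifferentiableAt ℝ p x) :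
    ContDiffOn ℝ 1 p {0}ᶜ := by
  refine (contDiffOn_succ_iff_fderiv_of_isOpen (n := 0) isOpen_compl_singleton).2
    ⟨fun x hx => (h x hx).differentiableWithinAt, by simp, contDiffOn_zero.2 fun x hx => ?_⟩
  refine Metric.tendsto_nhds.2 fun ε hε => ?_
  obtain ⟨δ, hδ, h1⟩ := exists_ball (h x hx).hasFDerivAt (show 0 < ε / 4 by positivity)
  have h2 : Tendsto (fun y => p (y + (y - x)) - 2 * p y) (𝓝 x) (𝓝 (p (x + (x - x)) - 2 * p x)) :=
    (ContinuousAt.comp_of_eq (h x hx).continuousAt (by fun_prop) (by simp)).sub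
      ((h x hx).continuousAt.const_mul 2)
  filter_upwards [self_mem_nhdsWithin, nhdsWithin_le_nhds (h2.eventually_lt_const
    (show p (x + (x - x)) - 2 * p x < ε / 4 * δ - p x by
      rw [sub_self, add_zero]; nlinarith [mul_pos hε hδ]))] with y hy h3
  obtain ⟨h4, h5⟩ := deriv_supp (h y hy).hasFDerivAt
  rw [dist_eq_norm]
  refine (norm_le_of_ball (b := ε / 2) hδ fun u hu => ?_).trans_lt (by linarith)
  have h6 := h4 (x + u)
  have h7 := h4 (y + (y - x))
  have h8 := h1 u hu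
  simp only [map_add, map_sub, sub_apply] at h6 h7 ⊢
  linarith

/-- A seminorm touched from above by a differentiable function is differentiable. -/
lemma sandwich {p : Seminorm ℝ E} {F : E → ℝ} {x : E} (h : DifferentiableAt ℝ F x)
    (h1 : ∀ y, p y ≤ F y) (h2 : p x = F x) : DifferentiableAt ℝ p x := by
  have h3 := hasFDerivAt_iff_isLittleO_nhds_zero.1 h.hasFDerivAt
  refine ⟨fderiv ℝ F x, hasFDerivAt_iff_isLittleO_nhds_zero.2 (IsBigO.trans_isLittleO
    (.of_bound 1 (.of_forall fun u => ?_)) (h3.norm_left.add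
      ((h3.comp_tendsto (by simpa using continuous_neg.tendsto (0 : E))).norm_left.of_neg_right)))⟩
  have h4 := map_add_le_add p (x + u) (x + -u)
  rw [show x + u + (x + -u) = (2 : ℝ) • x by module, map_smul_eq_mul, Real.norm_two] at h4
  have h5 := h1 (x + u)
  have h6 := h1 (x + -u)
  have h7 := le_abs_self (F (x + u) - F x - fderiv ℝ F x u)
  have h8 := le_abs_self (F (x + -u) - F x - fderiv ℝ F x (-u))
  have h9 := abs_nonneg (F (x + u) - F x - fderiv ℝ F x u)
  have h10 := abs_nonneg (F (x + -u) - F x - fderiv ℝ F x (-u))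
  simp only [Real.norm_eq_abs, Function.comp_apply, one_mul]
  rw [abs_of_nonneg (add_nonneg h9 h10), abs_le]
  rw [map_neg] at h8 h10 ⊢
  constructor <;> linarith

lemma diff_sq {N : Seminorm ℝ E} {C : ℝ} (hC : ∀ x, N x ≤ C * ‖x‖)
    (h : ∀ x ≠ 0, DifferentiableAt ℝ N x) : Differentiable ℝ fun x => N x ^ 2 := fun x => by
  obtain rfl | hx := eq_or_ne x 0
  · refine ⟨0, hasFDerivAt_iff_isLittleO_nhds_zero.2 (IsBigO.trans_isLittleO
      (.of_bound (C ^ 2) (.of_forall fun u => ?_)) (isLittleO_norm_pow_id one_lt_two))⟩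
    simpa [← mul_pow] using pow_le_pow_left₀ (apply_nonneg N u) (hC u) 2
  · exact (h x hx).pow 2

/-- Ekeland's variational principle. -/
lemma ekeland {M : Type*} [MetricSpace M] [CompleteSpace M] [Nonempty M] {h : M → ℝ}
    (hc : Continuous h) (hb : BddBelow (range h)) {ε : ℝ} (hε : 0 < ε) :
    ∃ x, ∀ y, h x ≤ h y + ε * dist y x := by
  have key : ∀ (n : ℕ) x, ∃ y, h y + ε * dist y x ≤ h x ∧
      ∀ z, h z + ε * dist z x ≤ h x → h y - 1 / (n + 1) ≤ h z := fun n x => by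
    obtain ⟨_, ⟨y, h1, rfl⟩, h2⟩ := exists_lt_of_csInf_lt (s := h '' {y | h y + ε * dist y x ≤ h x})
      ⟨_, x, by simp, rfl⟩ (lt_add_of_pos_right _ (Nat.one_div_pos_of_nat (n := n)))
    exact ⟨y, h1, fun z hz => by
      linarith [csInf_le (hb.mono (image_subset_range h {y | h y + ε * dist y x ≤ h x})) ⟨z, hz, rfl⟩]⟩
  choose f hf hf' using key
  let u : ℕ → M := fun n => n.rec (Classical.arbitrary M) f
  have h1 : ∀ m n, m ≤ n → h (u n) + ε * dist (u n) (u m) ≤ h (u m) := fun m n hmn => by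
    induction hmn with
    | refl => simp
    | @step n _ ih =>
      have := mul_le_mul_of_nonneg_left (dist_triangle (u (n + 1)) (u n) (u m)) hε.le
      have h2 : h (u (n + 1)) + ε * dist (u (n + 1)) (u n) ≤ h (u n) := hf n (u n)
      linarith
  have h2 := tendsto_atTop_ciInf (f := fun n => h (u n)) (fun m n hmn => by
    linarith [h1 m n hmn, mul_nonneg hε.le (dist_nonneg (x := u n) (y := u m))])
    (hb.mono (range_comp_subset_range u h))
  obtain ⟨x, hx⟩ := cauchySeq_tendsto_of_complete (Metric.cauchySeq_iff'.2 fun η hη => by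
    obtain ⟨m, hm⟩ := (h2.eventually_lt_const (lt_add_of_pos_right _ (mul_pos hε hη))).exists
    refine ⟨m, fun n hn => lt_of_mul_lt_mul_left ?_ hε.le⟩
    linarith [h1 m n hn, ciInf_le (f := fun n => h (u n)) (hb.mono (range_comp_subset_range u h)) n] :
      CauchySeq u)
  have h3 : ∀ m, h x + ε * dist x (u m) ≤ h (u m) := fun m =>
    le_of_tendsto (((hc.tendsto x).comp hx).add ((hx.dist tendsto_const_nhds).const_mul ε))
      (eventually_atTop.2 ⟨m, h1 m⟩)
  refine ⟨x, fun y => le_of_not_gt fun hy => ?_⟩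
  have h4 : h x - 0 ≤ h y := le_of_tendsto' ((((hc.tendsto x).comp hx).comp
    (tendsto_add_atTop_nat 1)).sub tendsto_one_div_add_atTop_nhds_zero_nat) fun n => hf' n (u n) y (by
      linarith [h3 n, mul_le_mul_of_nonneg_left (dist_triangle y x (u n)) hε.le])
  linarith [mul_nonneg hε.le (dist_nonneg (x := y) (y := x))]

/-- Bounded sets of functionals have small slices. -/
lemma slice [CompleteSpace E] {F : E → ℝ} (hF : Differentiable ℝ F) {c : ℝ} (hc : 0 < c)
    (hF' : ∀ x, (c * ‖x‖) ^ 2 ≤ F x) {ι : Type*} [Nonempty ι] (γ : ι → E →L[ℝ] ℝ) {R : ℝ}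
    (hR : ∀ i, ‖γ i‖ ≤ R) {ε : ℝ} (hε : 0 < ε) :
    ∃ x a, (∃ i, a < γ i x) ∧ ∀ i j, a ≤ γ i x → a ≤ γ j x → ‖γ i - γ j‖ ≤ ε := by
  have h1 : ∀ i x, γ i x ≤ R * ‖x‖ := fun i x =>
    (le_abs_self _).trans ((γ i).le_of_opNorm_le (hR i) x)
  have h2 : ∀ i x, γ i x ≤ ⨆ i, γ i x := fun i x =>
    le_ciSup (f := fun i => γ i x) ⟨_, forall_mem_range.2 fun i => h1 i x⟩ i
  have h3 : Continuous fun x => ⨆ i, γ i x :=
    (LipschitzWith.of_le_add_mul' R fun x y => ciSup_le fun i => by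
      have := h1 i (x - y)
      rw [map_sub, ← dist_eq_norm] at this
      linarith [h2 i y]).continuous
  obtain ⟨x, hx⟩ := ekeland (hF.continuous.sub h3) ⟨-(R / c) ^ 2, forall_mem_range.2 fun x => by
    have h4 : ⨆ i, γ i x ≤ R / c * (c * ‖x‖) := ciSup_le fun i => (h1 i x).trans_eq (by field_simp)
    have := hF' x
    simp only [Pi.sub_apply]
    nlinarith [sq_nonneg (c * ‖x‖ - R / c), sq_nonneg (c * ‖x‖), sq_nonneg (R / c)]⟩
    (show 0 < ε / 6 by positivity)
  obtain ⟨δ, hδ, h4⟩ := exists_ball (hF x).hasFDerivAt (show 0 < ε / 6 by positivity)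
  have h5 : ∀ i, (⨆ i, γ i x) - ε / 6 * δ ≤ γ i x → ‖γ i - fderiv ℝ F x‖ ≤ ε / 2 := fun i hi =>
    norm_le_of_ball hδ fun u hu => by
      have h6 := hx (x + u)
      have h7 := h2 i (x + u)
      have h8 := h4 u hu
      have h9 := mul_le_mul_of_nonneg_left hu (show 0 ≤ ε / 6 by positivity)
      simp only [Pi.sub_apply, dist_self_add_left, map_add, sub_apply] at *
      linarith
  refine ⟨x, _, exists_lt_of_lt_ciSup (sub_lt_self _ (show 0 < ε / 6 * δ by positivity)),
    fun i j hi hj => ?_⟩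
  linarith [norm_sub_le_norm_sub_add_norm_sub (γ i) (fderiv ℝ F x) (γ j), h5 i hi, h5 j hj,
    norm_sub_rev (γ j) (fderiv ℝ F x)]

/-- Weak-star limits along ultrafilters. -/
lemma exists_ulim {ι : Type*} (𝒰 : Ultrafilter ι) (g : ι → E →L[ℝ] ℝ) {R : ℝ}
    (h : ∀ i, ‖g i‖ ≤ R) : ∃ γ : E →L[ℝ] ℝ, ‖γ‖ ≤ R ∧ ∀ x, Tendsto (fun i => g i x) 𝒰 (𝓝 (γ x)) := by
  obtain ⟨γ, h1, h2⟩ := (WeakDual.isCompact_closedBall (0 : StrongDual ℝ E) R).ultrafilter_le_nhds
    (𝒰.map fun i => StrongDual.toWeakDual (g i)) (by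
      rw [le_principal_iff]
      exact mem_map.2 (univ_mem' fun i => by simpa using h i))
  exact ⟨WeakDual.toStrongDual γ, by simpa using h1,
    fun x => ((WeakDual.eval_continuous x).tendsto γ).comp h2⟩

end Pool.Agent.MP_8d41d4_an.H88
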