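import Mathlib

/-! Smooth norms and completeness. -/

namespace Pool.Agent.MP_8d41d4_an.H88

open Filter Topology

variable {X : Type*} [NormedAddCommGroup X] [NormedSpace ℝ X]

/-- `p` is a norm on the vector space `X` that is `C^1` on `X \ {0}` for the given topology. -/
def SmoothNorm (p : X → ℝ) : Prop :=
  (∀ x y, p (x + y) ≤ p x + p y) ∧ (∀ (a : ℝ) (x : X), p (a • x) = |a| * p x) ∧
    (∀ x, p x = 0 → x = 0) ∧ ContDiffOn ℝ 1 p {0}ᶜ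

/-- `(X, p)` is complete: every `p`-Cauchy sequence has a `p`-limit. -/
def CompleteFor (p : X → ℝ) : Prop :=
  ∀ u : ℕ → X, (∀ ε > 0, ∃ N, ∀ m ≥ N, ∀ n ≥ N, p (u m - u n) < ε) →
    ∃ x, Tendsto (fun n => p (u n - x)) atTop (𝓝 0)

/-- `e` is an unconditional basic sequence. -/
def UncondBasic (e : ℕ → X) : Prop :=
  (∀ i, e i ≠ 0) ∧ ∃ K : ℝ, ∀ (s t : Finset ℕ) (a : ℕ → ℝ), s ⊆ t →
    ‖∑ i ∈ s, a i • e i‖ ≤ K * ‖∑ i ∈ t, a i • e i‖

end Pool.Agent.MP_8d41d4_an.H88
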