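import Pool.Agent.MP_8d41d4_an.H88.Unc
import Pool.Agent.MP_8d41d4_an.H88.Defs

/-! The open mapping step. -/

namespace Pool.Agent.MP_8d41d4_an.H88

open Filter Topology

variable {X : Type*} [NormedAddCommGroup X] [NormedSpace ℝ X] [CompleteSpace X]

/-- A copy of the vector space without its norm. -/
def Syn (X : Type*) := X

instance : AddCommGroup (Syn X) := inferInstanceAs (AddCommGroup X)

instance : Module ℝ (Syn X) := inferInstanceAs (Module ℝ X)

lemma equiv_of_complete (p : Seminorm ℝ X) (h0 : ∀ x, p x = 0 → x = 0) {C : ℝ}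
    (hC : ∀ x, p x ≤ C * ‖x‖) (hc : CompleteFor p) : ∃ D > 0, ∀ x, ‖x‖ ≤ D * p x := by
  let : NormedAddCommGroup (Syn X) :=
    AddGroupNorm.toNormedAddCommGroup (E := Syn X) ⟨p.toAddGroupSeminorm, h0⟩
  let : NormedSpace ℝ (Syn X) := ⟨fun a x => (map_smul_eq_mul p a x).le⟩
  have : CompleteSpace (Syn X) := Metric.complete_of_cauchySeq_tendsto fun u hu => by
    simp only [Metric.cauchySeq_iff, dist_eq_norm] at hu
    exact (hc u hu).imp fun x hx => tendsto_iff_norm_sub_tendsto_zero.2 hx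
  let e : X ≃ₗ[ℝ] Syn X := LinearEquiv.refl ℝ X
  exact SemilinearMapClass.bound_of_continuous e.symm
    (e.continuous_symm (e.toLinearMap.mkContinuous C hC).continuous)

theorem of_good (h : Good X) : ∃ p : X → ℝ, SmoothNorm p ∧ ¬ CompleteFor p := by
  obtain ⟨p, h0, h1, ⟨C, h2⟩, h3⟩ := h
  refine ⟨p, ⟨map_add_le_add p, map_smul_eq_mul p, h0, contDiffOn_of_diff h1⟩, fun hc => ?_⟩
  obtain ⟨D, h4, h5⟩ := equiv_of_complete p h0 h2 hc
  obtain ⟨x, h6⟩ := h3 D⁻¹ (inv_pos.2 h4)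
  exact h6.not_ge ((inv_mul_le_iff₀ h4).2 (h5 x))

omit [CompleteSpace X] in
theorem nice {N : X → ℝ} (hN : SmoothNorm N) {c C : ℝ} (hc : 0 < c)
    (h : ∀ x, c * ‖x‖ ≤ N x ∧ N x ≤ C * ‖x‖) : Nice (Seminorm.of N hN.1 hN.2.1) c C :=
  ⟨hc, fun x => (h x).1, fun x => (h x).2, fun _ hx =>
    (hN.2.2.2.contDiffAt (isOpen_compl_singleton.mem_nhds hx)).differentiableAt one_ne_zero⟩

end Pool.Agent.MP_8d41d4_an.H88
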