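import Pool.Agent.MP_8d41d4_an.H88.C0

/-! The case of an unconditional basic sequence. -/

namespace Pool.Agent.MP_8d41d4_an.H88

open Filter Topology Set

variable {X : Type*} [NormedAddCommGroup X] [NormedSpace ℝ X] {e : ℕ → X} {K : ℝ}

/-- The inequality of an unconditional basic sequence. -/
def Unc (e : ℕ → X) (K : ℝ) : Prop :=
  ∀ (s t : Finset ℕ) (a : ℕ → ℝ), s ⊆ t → ‖∑ i ∈ s, a i • e i‖ ≤ K * ‖∑ i ∈ t, a i • e i‖

lemma Unc.indep (h : Unc e K) (h0 : ∀ i, e i ≠ 0) : LinearIndependent ℝ e :=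
  linearIndependent_iff'.2 fun s a hs i hi => by
    simpa [hs, h0] using h {i} s a (by simpa using hi)

lemma Unc.coord (h : Unc e K) (h0 : ∀ i, e i ≠ 0) :
    ∃ f : ℕ → X →L[ℝ] ℝ, ∀ i j, f i (e j) = if j = i then 1 else 0 := by
  have hl := h.indep h0
  have key : ∀ i (z : Submodule.span ℝ (range e)), ‖hl.repr z i‖ ≤ K / ‖e i‖ * ‖z‖ := fun i z => by
    have h1 := h {i} (insert i (hl.repr z).support) (hl.repr z) (by simp)
    rw [← Finsupp.sum_of_support_subset _ (Finset.subset_insert i _) (fun i a => a • e i) (by simp),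
      ← Finsupp.linearCombination_apply, hl.linearCombination_repr, Finset.sum_singleton,
      norm_smul] at h1
    rwa [div_mul_eq_mul_div, le_div_iff₀ (norm_pos_iff.2 (h0 i))]
  choose f hf _ using fun i => exists_extension_norm_eq _
    ((Finsupp.lapply i ∘ₗ hl.repr).mkContinuous _ (key i))
  refine ⟨f, fun i j => (hf i ⟨e j, Submodule.subset_span (mem_range_self j)⟩).trans ?_⟩
  simp [hl.repr_eq_single j ⟨e j, _⟩ rfl, Finsupp.single_apply]

/-- The coordinate projections. -/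
noncomputable def prj (e : ℕ → X) (f : ℕ → X →L[ℝ] ℝ) (s : Finset ℕ) : X →L[ℝ] X :=
  ∑ i ∈ s, (f i).smulRight (e i)

lemma prj_apply (e : ℕ → X) (f : ℕ → X →L[ℝ] ℝ) (s : Finset ℕ) (z : X) :
    prj e f s z = ∑ i ∈ s, f i z • e i := by simp [prj]

variable {f : ℕ → X →L[ℝ] ℝ} (hf : ∀ i j, f i (e j) = if j = i then 1 else 0)
include hf

lemma prj_sum (s t : Finset ℕ) (a : ℕ → ℝ) :
    prj e f s (∑ j ∈ t, a j • e j) = ∑ j ∈ s ∩ t, a j • e j := by
  simp [prj_apply, hf, ite_smul, Finset.inter_comm]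

lemma prj_span {w : X} (hw : w ∈ Submodule.span ℝ (range e)) :
    ∃ t : Finset ℕ, ∀ s, t ⊆ s → prj e f s w = w := by
  obtain ⟨a, rfl⟩ := Finsupp.mem_span_range_iff_exists_finsupp.1 hw
  exact ⟨a.support, fun s hs => by rw [Finsupp.sum, prj_sum hf, Finset.inter_eq_right.2 hs]⟩

lemma Unc.prj_le (h : Unc e K) (s : Finset ℕ) {z : X}
    (hz : z ∈ (Submodule.span ℝ (range e)).topologicalClosure) : ‖prj e f s z‖ ≤ K * ‖z‖ := by
  refine closure_minimal (t := {z | ‖prj e f s z‖ ≤ K * ‖z‖}) (fun w hw => ?_)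
    (isClosed_le (by fun_prop) (by fun_prop)) hz
  obtain ⟨t, ht⟩ := prj_span hf hw
  have := h s (t ∪ s) (fun i => f i w) Finset.subset_union_right
  rwa [← prj_apply, ← prj_apply, ht _ Finset.subset_union_left] at this

lemma Unc.expand (h : Unc e K) {z : X}
    (hz : z ∈ (Submodule.span ℝ (range e)).topologicalClosure) :
    Tendsto (fun s => prj e f s z) atTop (𝓝 z) := by
  refine Metric.tendsto_atTop.2 fun ε hε => ?_
  obtain ⟨w, hw, h1⟩ := Metric.mem_closure_iff.1 hz (ε / (|K| + 1)) (by positivity)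
  obtain ⟨t, ht⟩ := prj_span hf hw
  refine ⟨t, fun s hs => ?_⟩
  have h2 := h.prj_le hf s (sub_mem hz (Submodule.le_topologicalClosure _ hw))
  rw [map_sub, ht s hs, ← dist_eq_norm] at h2
  rw [lt_div_iff₀ (by positivity), dist_eq_norm] at h1
  have h3 := dist_triangle_right (prj e f s z) z w
  rw [dist_eq_norm z] at h3
  nlinarith [le_abs_self K, norm_nonneg (z - w)]

variable [CompleteSpace X] {N : Seminorm ℝ X} {c C : ℝ}

lemma Unc.shrink (h : Unc e K) (hN : Nice N c C) (g : X →L[ℝ] ℝ) {ε : ℝ} (hε : 0 < ε) :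
    ∃ s₀ : Finset ℕ, ∀ s, s₀ ⊆ s → ∀ z ∈ (Submodule.span ℝ (range e)).topologicalClosure,
      |g z - g (prj e f s z)| ≤ ε * ‖z‖ := by
  set Z := (Submodule.span ℝ (range e)).topologicalClosure
  have : CompleteSpace Z := (Submodule.isClosed_topologicalClosure _).completeSpace_coe
  obtain ⟨x, a, ⟨s₁, h1⟩, h2⟩ := slice (E := Z) (F := fun x => N x ^ 2)
    ((diff_sq hN.up hN.diff).comp Z.subtypeL.differentiable) hN.pos (fun x => hN.sq_le x)
    (fun s => g ∘L prj e f s ∘L Z.subtypeL) (R := ‖g‖ * |K|)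
    (fun s => ContinuousLinearMap.opNorm_le_bound _ (by positivity) fun z => (g.le_opNorm _).trans (by
      rw [mul_assoc]
      gcongr
      exact (h.prj_le hf s z.2).trans
        (mul_le_mul_of_nonneg_right (le_abs_self K) (norm_nonneg _)))) hε
  obtain ⟨s₂, h3⟩ := (summable_iff_vanishing_norm (f := fun i => g (f i x • e i))).1
    ⟨g x, by simpa [HasSum, prj_apply, Function.comp_def] using (g.continuous.tendsto _).comp (h.expand hf x.2)⟩
    _ (sub_pos.2 h1)
  have h4 : ∀ (s t : Finset ℕ) z, Disjoint s t → prj e f (s ∪ t) z = prj e f s z + prj e f t z :=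
    fun s t z hd => by rw [prj_apply, Finset.sum_union hd, ← prj_apply, ← prj_apply]
  refine ⟨s₁ ∪ s₂, fun s hs z hz => le_of_tendsto ((((g.continuous.tendsto _).comp
    (h.expand hf hz)).sub_const _).abs) (eventually_atTop.2 ⟨s, fun t ht => ?_⟩)⟩
  have h5 : Disjoint (s₁ ∪ s₂) (t \ s) := Finset.disjoint_sdiff.mono_left hs
  have h6 := h3 _ (h5.mono_left Finset.subset_union_right).symm
  rw [← map_sum, ← prj_apply] at h6
  have h7 := h4 _ _ x (h5.mono_left Finset.subset_union_left)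
  have h8 := ContinuousLinearMap.le_of_opNorm_le _ (h2 (s₁ ∪ t \ s) s₁ (by
    simp only [ContinuousLinearMap.comp_apply, Submodule.subtypeL_apply, h7, map_add] at h1 h6 ⊢
    linarith [(abs_lt.1 h6).1]) h1.le) ⟨z, hz⟩
  rw [Function.comp_apply, ← Finset.union_sdiff_of_subset ht, h4 _ _ _ Finset.disjoint_sdiff]
  simpa [h4 _ _ z (h5.mono_left Finset.subset_union_left)] using h8

lemma Unc.wkC (h : Unc e K) (hN : Nice N c C) (hb : ∀ (a : ℕ → ℝ) (D : ℝ),
    (∀ s : Finset ℕ, ‖∑ i ∈ s, a i • e i‖ ≤ D) → Summable fun i => a i • e i) :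
    WkC (Submodule.span ℝ (range e)).topologicalClosure := fun z R hz hR => by
  obtain ⟨Φ, -, h1⟩ := exists_ulim (hyperfilter ℕ)
    (fun n => NormedSpace.inclusionInDoubleDual ℝ X (z n)) (R := R) fun n =>
      ((NormedSpace.inclusionInDoubleDualLi ℝ).norm_map (z n)).trans_le (hR n)
  have h2 : ∀ s, Tendsto (fun n => prj e f s (z n)) (hyperfilter ℕ)
      (𝓝 (∑ i ∈ s, Φ (f i) • e i)) := fun s => by
    simp only [prj_apply]
    exact tendsto_finsetSum _ fun i _ => (h1 (f i)).smul_const _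
  obtain ⟨y, hy⟩ := hb (fun i => Φ (f i)) (|K| * R) fun s => le_of_tendsto' (h2 s).norm fun n =>
    (h.prj_le hf s (hz n)).trans
      (mul_le_mul (le_abs_self K) (hR n) (norm_nonneg _) (abs_nonneg K))
  refine ⟨y, fun g => ?_⟩
  rw [← sub_eq_zero.1 (abs_nonpos_iff.1 (le_of_forall_pos_le_add fun ε hε => ?_ : |Φ g - g y| ≤ 0))]
  · exact h1 g
  obtain ⟨s₀, h3⟩ := h.shrink hf hN g (show 0 < ε / (|R| + 1) by positivity)
  refine le_of_tendsto (((g.continuous.tendsto _).comp hy).const_sub _).abs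
    (eventually_atTop.2 ⟨s₀, fun s hs => le_of_tendsto' ((h1 g).sub
      ((g.continuous.tendsto _).comp (h2 s))).abs fun n => (h3 s hs _ (hz n)).trans ?_⟩)
  rw [zero_add, div_mul_eq_mul_div, div_le_iff₀ (by positivity)]
  gcongr
  linarith [hR n, le_abs_self R]

omit hf in
theorem good_of_unc (hN : Nice N c C) (h : Unc e K) (h0 : ∀ i, e i ≠ 0) : Good X := by
  obtain ⟨f, hf⟩ := h.coord h0
  by_cases hb : ∀ (a : ℕ → ℝ) (D : ℝ),
    (∀ s : Finset ℕ, ‖∑ i ∈ s, a i • e i‖ ≤ D) → Summable fun i => a i • e i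
  · exact good_of_seq hN (h.indep h0) (h.wkC hf hN hb)
  simp only [summable_iff_vanishing_norm] at hb
  push Not at hb
  obtain ⟨a, D, h1, δ, hδ, h2⟩ := hb
  obtain ⟨t, h3, h4⟩ := exists_seq_of_forall_finset_exists' (fun t : Finset ℕ =>
    δ ≤ ‖∑ i ∈ t, a i • e i‖) Disjoint fun s _ => (h2 (s.sup id)).imp fun t ht =>
      ⟨ht.2, fun x hx => (ht.1.mono_right (Finset.le_sup (f := id) hx)).symm⟩
  choose ψ h5 h6 using fun k => exists_dual_vector'' ℝ (∑ i ∈ t k, a i • e i)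
  set Z := (Submodule.span ℝ (range e)).topologicalClosure
  choose g h7 h8 using fun k => exists_extension_norm_eq Z
    (‖∑ i ∈ t k, a i • e i‖⁻¹ • ψ k ∘L prj e f (t k) ∘L Z.subtypeL)
  have h9 : ∀ j k, g k (∑ i ∈ t j, a i • e i) =
      ‖∑ i ∈ t k, a i • e i‖⁻¹ * ψ k (∑ i ∈ t k ∩ t j, a i • e i) := fun j k => by
    rw [← prj_sum hf]
    exact h7 k ⟨_, Submodule.le_topologicalClosure _ (sum_mem fun i _ =>
      Submodule.smul_mem _ _ (Submodule.subset_span (mem_range_self i)))⟩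
  refine good_of_c0 hN (b := fun k => ∑ i ∈ t k, a i • e i) (D := D) (R := δ⁻¹ * |K|) (g := g)
    (fun s => ?_) (fun k => ?_) (fun k => ?_) fun j k hk => ?_
  · rw [← Finset.sum_biUnion (h4.set_pairwise _)]
    exact h1 _
  · rw [h8]
    refine ContinuousLinearMap.opNorm_le_bound _ (by positivity) fun z => ?_
    rw [smul_apply, norm_smul, norm_inv, norm_norm, mul_assoc]
    refine mul_le_mul (inv_anti₀ hδ (h3 k)) (((ψ k).le_of_opNorm_le (h5 k) _).trans ?_)
      (norm_nonneg _) (by positivity)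
    rw [one_mul]
    exact (h.prj_le hf _ z.2).trans (mul_le_mul_of_nonneg_right (le_abs_self K) (norm_nonneg _))
  · rw [h9, Finset.inter_self, h6]
    exact inv_mul_cancel₀ (hδ.trans_le (h3 k)).ne'
  · rw [h9, Finset.disjoint_iff_inter_eq_empty.1 (h4 hk)]
    simp

end Pool.Agent.MP_8d41d4_an.H88
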