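import Pool.Agent.MP_8d41d4_an.H88.Calc

/-! The case of a subspace with weakly compact balls. -/

namespace Pool.Agent.MP_8d41d4_an.H88

open Filter Topology Set TopologicalSpace

variable {X : Type*} [NormedAddCommGroup X] [NormedSpace ℝ X]

/-- An equivalent norm that is differentiable away from the origin. -/
structure Nice (N : Seminorm ℝ X) (c C : ℝ) : Prop where
  pos : 0 < c
  lo : ∀ x, c * ‖x‖ ≤ N x
  up : ∀ x, N x ≤ C * ‖x‖
  diff : ∀ x ≠ 0, DifferentiableAt ℝ N x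

variable (X) in
/-- There is a differentiable continuous norm that is not equivalent to the given one. -/
def Good : Prop :=
  ∃ p : Seminorm ℝ X, (∀ x, p x = 0 → x = 0) ∧ (∀ x ≠ 0, DifferentiableAt ℝ p x) ∧
    (∃ C, ∀ x, p x ≤ C * ‖x‖) ∧ ∀ c > 0, ∃ x, p x < c * ‖x‖

/-- Bounded sequences in `Z` have weak limits along the hyperfilter. -/
def WkC (Z : Submodule ℝ X) : Prop :=
  ∀ (z : ℕ → X) (R : ℝ), (∀ n, z n ∈ Z) → (∀ n, ‖z n‖ ≤ R) →
    ∃ y, ∀ g : X →L[ℝ] ℝ, Tendsto (fun n => g (z n)) (hyperfilter ℕ) (𝓝 (g y))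

lemma proximinal {N : Seminorm ℝ X} {c C : ℝ} (hN : Nice N c C) {Z : Submodule ℝ X}
    (hZ : IsClosed (Z : Set X)) (hw : WkC Z) (x : X) :
    ∃ y ∈ Z, ∀ z ∈ Z, N (x - y) ≤ N (x - z) := by
  have hb : BddBelow ((fun z => N (x - z)) '' Z) := ⟨0, forall_mem_image.2 fun _ _ => apply_nonneg _ _⟩
  obtain ⟨u, h1, h2, h3⟩ := exists_seq_tendsto_sInf ⟨_, mem_image_of_mem _ Z.zero_mem⟩ hb
  choose z hz e using h3
  beta_reduce at e
  obtain ⟨y, hy⟩ := hw z ((N x + u 0) / c) hz fun n => by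
    have := map_sub_le_add N x (x - z n)
    rw [sub_sub_cancel, e] at this
    rw [le_div_iff₀' hN.pos]
    linarith [hN.lo (z n), h1 n.zero_le]
  refine ⟨y, by_contra fun hc => ?_, fun w hw => ?_⟩
  · obtain ⟨g, a, h4, h5⟩ := geometric_hahn_banach_closed_point Z.convex hZ hc
    exact h5.not_ge (le_of_tendsto' (hy g) fun n => (h4 _ (hz n)).le)
  obtain h | h := eq_or_ne (x - y) 0
  · rw [h, map_zero]; exact apply_nonneg _ _
  obtain ⟨h4, h5⟩ := deriv_supp (hN.diff _ h).hasFDerivAt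
  refine le_trans ?_ (csInf_le hb (mem_image_of_mem _ hw))
  rw [← h5, map_sub]
  exact le_of_tendsto_of_tendsto' ((hy _).const_sub _) (h2.mono_left Nat.hyperfilter_le_atTop)
    fun n => by rw [← map_sub, ← e]; exact h4 _

lemma exists_separating {Z : Set X} (hs : IsSeparable Z) :
    ∃ f : ℕ → X →L[ℝ] ℝ, (∀ n, ‖f n‖ ≤ 1) ∧ ∀ z ∈ Z, (∀ n, f n z = 0) → z = 0 := by
  obtain ⟨s, h1, h2⟩ := hs
  obtain ⟨w, hw⟩ := (h1.insert 0).exists_eq_range (insert_nonempty _ _)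
  choose f hf hf' using fun n => exists_dual_vector'' ℝ (w n)
  refine ⟨f, hf, fun z hz h => norm_le_zero_iff.1 ?_⟩
  have : closure s ⊆ {y | ‖y‖ ≤ ‖y - z‖} := closure_minimal (fun y hy => by
    obtain ⟨n, rfl⟩ : y ∈ range w := hw ▸ mem_insert_of_mem _ hy
    have := (f n).le_of_opNorm_le (hf n) (w n - z)
    simpa [h n, hf' n] using this) (isClosed_le (by fun_prop) (by fun_prop))
  simpa using this (h2 hz)

variable [CompleteSpace X]

lemma exists_clm {Y : Type*} [NormedAddCommGroup Y] [NormedSpace ℝ Y]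
    (A : ℕ → X →L[ℝ] Y) (hs : ∀ z, Summable fun n => A n z) :
    ∃ T : X →L[ℝ] Y, ∀ z, HasSum (fun n => A n z) (T z) :=
  ⟨continuousLinearMapOfTendsto (l := atTop) (fun n => ∑ k ∈ Finset.range n, A k)
    (f := fun z => ∑' n, A n z) (tendsto_pi_nhds.2 fun z => by
      simpa using (hs z).hasSum.tendsto_sum_nat), fun z => (hs z).hasSum⟩

lemma exists_hilbert_aux {H : Type} [NormedAddCommGroup H] [InnerProductSpace ℝ H] [CompleteSpace H]
    {e : ℕ → H} (he : Orthonormal ℝ e) (f : ℕ → X →L[ℝ] ℝ) (hf : ∀ n, ‖f n‖ ≤ 1) :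
    ∃ T : X →L[ℝ] H, (∀ z, T z = 0 → ∀ n, f n z = 0) ∧
      ∀ m z, (∀ n < m, f n z = 0) → ‖T z‖ ≤ 2 * ((1 / 2) ^ m * ‖z‖) := by
  let A : ℕ → X →L[ℝ] H := fun n => (1 / 2 : ℝ) ^ n • (f n).smulRight (e n)
  have hA : ∀ n, ‖A n‖ ≤ (1 / 2) ^ n := fun n => by
    simpa [A, norm_smul, he.1 n] using hf n
  obtain ⟨T, hz⟩ := exists_clm A fun z => Summable.of_norm_bounded
    (summable_geometric_two.mul_right _) fun n => (A n).le_of_opNorm_le (hA n) z
  refine ⟨T, fun z h n => ?_, fun m z h => ?_⟩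
  · have := ((innerSL ℝ (e n)).hasSum (hz z)).unique (hasSum_single n fun k hk => by
      simp [A, he.inner_eq_zero hk.symm])
    rw [h] at this
    simpa [A, inner_smul_right, he.1 n] using this
  · have h1 := (hasSum_nat_add_iff' m).2 (hz z)
    rw [Finset.sum_eq_zero fun n hn => by simp [A, h n (Finset.mem_range.1 hn)], sub_zero] at h1
    refine h1.norm_le_of_bounded (hasSum_geometric_two.mul_right _) fun n => ?_
    rw [← mul_assoc, ← pow_add]
    exact (A _).le_of_opNorm_le (hA _) z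

lemma exists_hilbert (f : ℕ → X →L[ℝ] ℝ) (hf : ∀ n, ‖f n‖ ≤ 1) :
    ∃ (H : Type) (_ : NormedAddCommGroup H) (_ : InnerProductSpace ℝ H) (T : X →L[ℝ] H),
      (∀ z, T z = 0 → ∀ n, f n z = 0) ∧
      ∀ m z, (∀ n < m, f n z = 0) → ‖T z‖ ≤ 2 * ((1 / 2) ^ m * ‖z‖) :=
  ⟨_, _, _, exists_hilbert_aux (default : HilbertBasis ℕ ℝ (lp (fun _ : ℕ => ℝ) 2)).orthonormal f hf⟩

lemma sqrt_add_le {a b a' b' s t : ℝ} (hs : 0 ≤ s) (ht : 0 ≤ t) (h : s ≤ a + a') (h' : t ≤ b + b') :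
    √(s ^ 2 + t ^ 2) ≤ √(a ^ 2 + b ^ 2) + √(a' ^ 2 + b' ^ 2) := by
  have := norm_add_le (⟨a, b⟩ : ℂ) ⟨a', b'⟩
  simp only [Complex.norm_eq_sqrt_sq_add_sq, Complex.add_re, Complex.add_im] at this
  exact le_trans (by gcongr) this

theorem good_of_prox {N : Seminorm ℝ X} {c C : ℝ} (hN : Nice N c C) {Z : Submodule ℝ X}
    (hs : IsSeparable (Z : Set X)) (hi : ¬ FiniteDimensional ℝ Z)
    (hw : ∀ x, ∃ y ∈ Z, ∀ z ∈ Z, N (x - y) ≤ N (x - z)) : Good X := by
  choose m hm hm' using hw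
  obtain ⟨f, hf, hf'⟩ := exists_separating hs
  obtain ⟨H, _, _, T, hT, hT'⟩ := exists_hilbert f hf
  have h0 : ∀ z ∈ Z, N (z - m z) = 0 := fun z hz =>
    le_antisymm (by simpa using hm' z z hz) (apply_nonneg _ _)
  obtain ⟨p, hp⟩ : ∃ p : Seminorm ℝ X, ∀ x, p x = √(N (x - m x) ^ 2 + ‖T x‖ ^ 2) :=
    ⟨Seminorm.ofSMulLE (fun x => √(N (x - m x) ^ 2 + ‖T x‖ ^ 2))
    (by simp only [h0 0 Z.zero_mem]; simp)
    (fun x y => sqrt_add_le (apply_nonneg _ _) (norm_nonneg _)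
      ((hm' _ _ (add_mem (hm x) (hm y))).trans (by
        rw [add_sub_add_comm]; exact map_add_le_add _ _ _))
      (by rw [map_add]; exact norm_add_le _ _))
    fun r x => by
      have := hm' (r • x) _ (Z.smul_mem r (hm x))
      rw [← smul_sub, map_smul_eq_mul] at this
      rw [← Real.sqrt_sq (norm_nonneg r), ← Real.sqrt_mul (sq_nonneg _), mul_add, ← mul_pow,
        ← mul_pow, map_smul, norm_smul]
      gcongr, fun _ => rfl⟩
  have h1 : ∀ x, N (x - m x) ^ 2 + ‖T x‖ ^ 2 ≤ 0 → x = 0 := fun x h => by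
    have h2 : N (x - m x) = 0 := pow_eq_zero_iff two_ne_zero |>.1 (by nlinarith [sq_nonneg ‖T x‖])
    have h3 := hN.lo (x - m x)
    rw [h2, ← le_div_iff₀' hN.pos, zero_div, norm_le_zero_iff, sub_eq_zero] at h3
    exact hf' x (h3 ▸ hm x) (hT x (by simpa [h2] using h))
  refine ⟨p, fun x h => h1 x (Real.sqrt_eq_zero'.1 ((hp x).symm.trans h)), fun x hx => ?_, ⟨C + ‖T‖, fun x => ?_⟩,
    fun ε hε => ?_⟩
  · have h2 : DifferentiableAt ℝ (fun y => N (y - m x) ^ 2) x :=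
      (diff_sq hN.up hN.diff _).comp x (differentiableAt_id.sub_const (m x))
    have h3 : DifferentiableAt ℝ (fun y => ‖T y‖ ^ 2) x := T.differentiableAt.norm_sq ℝ
    have h4 : DifferentiableAt ℝ (fun y => N (y - m x) ^ 2 + ‖T y‖ ^ 2) x := h2.add h3
    refine sandwich (h4.sqrt fun h => hx (h1 x h.le)) (fun y => ?_) (hp x)
    rw [hp]
    gcongr
    exact hm' y _ (hm x)
  · have := sqrt_add_le (a := C * ‖x‖) (b := 0) (a' := 0) (b' := ‖T‖ * ‖x‖) (apply_nonneg N _)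
      (norm_nonneg (T x)) ((hm' x 0 Z.zero_mem).trans (by simpa using hN.up x))
      (by simpa using T.le_opNorm x)
    rw [hp, add_mul]
    simpa [Real.sqrt_sq ((apply_nonneg _ _).trans (hN.up x)),
      Real.sqrt_sq (show 0 ≤ ‖T‖ * ‖x‖ by positivity)] using this
  · obtain ⟨k, hk⟩ := exists_pow_lt_of_lt_one (half_pos hε) (show (1 / 2 : ℝ) < 1 by norm_num)
    obtain ⟨z, h2, h3⟩ : ∃ z : Z, (LinearMap.pi fun n : Fin k => (f n).toLinearMap ∘ₗ Z.subtype) z = 0 ∧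
        z ≠ 0 := by
      by_contra hc
      push Not at hc
      exact hi (Module.Finite.of_injective _ ((injective_iff_map_eq_zero _).2 hc))
    refine ⟨z, ?_⟩
    have h4 : 0 < ‖(z : X)‖ := by simpa using h3
    rw [hp, h0 _ z.2, zero_pow two_ne_zero, zero_add, Real.sqrt_sq (norm_nonneg _)]
    nlinarith [hT' k z fun n hn => congrFun h2 ⟨n, hn⟩]

theorem good_of_seq {N : Seminorm ℝ X} {c C : ℝ} (hN : Nice N c C) {v : ℕ → X}
    (hv : LinearIndependent ℝ v) (hw : WkC (Submodule.span ℝ (range v)).topologicalClosure) :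
    Good X := by
  refine good_of_prox hN (countable_range _).isSeparable.span.closure (fun h => ?_)
    (proximinal hN (Submodule.isClosed_topologicalClosure _) hw)
  have := Submodule.finiteDimensional_of_le (Submodule.le_topologicalClosure
    (Submodule.span ℝ (range v)))
  exact Module.Finite.not_linearIndependent_of_infinite _ (linearIndependent_span hv)

theorem good_of_refl {N : Seminorm ℝ X} {c C : ℝ} (hN : Nice N c C) {Z : Submodule ℝ X}
    (hi : ¬ FiniteDimensional ℝ Z)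
    (hr : Function.Surjective (NormedSpace.inclusionInDoubleDual ℝ Z))
    (hZ : IsClosed (Z : Set X)) : Good X := by
  obtain ⟨v, hv⟩ : ∃ v : ℕ → Z, LinearIndependent ℝ v := by
    have : Infinite (Module.Basis.ofVectorSpaceIndex ℝ Z) := ⟨fun h =>
      hi (Module.Finite.of_basis (Module.Basis.ofVectorSpace ℝ Z))⟩
    exact ⟨_, (Module.Basis.ofVectorSpace ℝ Z).linearIndependent.comp _
      (Infinite.natEmbedding _).injective⟩
  refine good_of_seq hN (hv.map' Z.subtype Z.ker_subtype) fun z R hz hR => ?_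
  have h2 : ∀ n, z n ∈ Z := fun n => Submodule.topologicalClosure_minimal _
    (Submodule.span_le.2 (forall_mem_range.2 fun i => (v i).2)) hZ (hz n)
  obtain ⟨Φ, -, h3⟩ := exists_ulim (hyperfilter ℕ)
    (fun n => NormedSpace.inclusionInDoubleDual ℝ Z ⟨z n, h2 n⟩) (R := R) fun n =>
      ((NormedSpace.inclusionInDoubleDualLi ℝ).norm_map (⟨z n, h2 n⟩ : Z)).trans_le (hR n)
  obtain ⟨y, rfl⟩ := hr Φ
  exact ⟨y, fun g => h3 (g ∘L Z.subtypeL)⟩

end Pool.Agent.MP_8d41d4_an.H88
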